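import Pool.Agent.H64.ISO.Alg

/-!
# An irreducible polynomial with contractible zero set which is not isotrivial

Problem MP_4658d5_ag.
-/

set_option autoImplicit false

namespace Pool.Agent.Results.MP_4658d5_ag.IrreduciblePolynomial

open MvPolynomial

/-- the polynomial `y^5 - (y^2 z + y x^2 + x^4)^2`, `z = X 0`, `x = X 1`, `y = X 2` -/
noncomputable def p : MvPolynomial (Fin 3) ℂ :=
  X 2 ^ 5 - (X 2 ^ 2 * X 0 + X 2 * X 1 ^ 2 + X 1 ^ 4) ^ 2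

/-- the fibre `F_c = {p = c}` -/
def F (c : ℂ) : Set (Fin 3 → ℂ) := {v | eval v p = c}

/-- `F_c` and `F_d` are isomorphic: some polynomial maps `f`, `g` of `ℂ^3` restrict to mutually
inverse maps `F_c → F_d`, `F_d → F_c` -/
def Isomorphic (c d : ℂ) : Prop :=
  ∃ f g : Fin 3 → MvPolynomial (Fin 3) ℂ,
    (∀ v ∈ F c, (fun i => eval v (f i)) ∈ F d ∧ ∀ j, eval (fun i => eval v (f i)) (g j) = v j) ∧
    ∀ w ∈ F d, (fun i => eval w (g i)) ∈ F c ∧ ∀ j, eval (fun i => eval w (g i)) (f j) = w j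

/-- the coordinate algebra of `F_c` -/
abbrev Coord (c : ℂ) : Type := MvPolynomial (Fin 3) ℂ ⧸ Ideal.span {p - C c}

theorem result :
    Irreducible p ∧ ContractibleSpace (F 0) ∧
    (∀ v : Fin 3 → ℂ, eval v p ≠ 0 → ∃ i, eval v (pderiv i p) ≠ 0) ∧
    ∀ c d : ℂ, c ≠ 0 → d ≠ 0 → c ≠ d →
      ¬ Isomorphic c d ∧ IsEmpty (Coord c ≃ₐ[ℂ] Coord d) := by
  refine ⟨Pool.H64.ISO.irreducible_P, Pool.H64.ISO.contr, Pool.H64.ISO.smooth,
    fun c d hc hd hcd => ⟨?_, ⟨fun e => ?_⟩⟩⟩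
  · rintro ⟨f, g, h1, h2⟩
    exact hcd (Pool.H64.ISO.iso_eq hc hd (f := f) (g := g)
      ⟨fun v hv => ⟨(h1 v hv).1, funext (h1 v hv).2⟩,
        fun w hw => ⟨(h2 w hw).1, funext (h2 w hw).2⟩⟩)
  · obtain ⟨f, g, h⟩ := Pool.H64.ISO.alg_iso (c := c) (d := d) e
    exact hcd (Pool.H64.ISO.iso_eq hc hd h)

end Pool.Agent.Results.MP_4658d5_ag.IrreduciblePolynomial
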